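import Mathlib

/-!
Definitions for MP_68925f_co: Conway's nim product on the natural numbers and 2-regularity.
The nim sum is the bitwise exclusive or `^^^` of core.
-/

namespace Pool.Agent.Lib.MP_68925f_co

/-- Conway's nim product: `nimMul a b` is the least natural number (the mex) that is not of the
form `(a' ⊗ b) ⊕ (a ⊗ b') ⊕ (a' ⊗ b')` with `a' < a` and `b' < b`, where `⊕` is the nim sum. -/
noncomputable def nimMul (a b : ℕ) : ℕ :=
  sInf {x | ∃ a', ∃ (_ : a' < a), ∃ b', ∃ (_ : b' < b),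
    nimMul a' b ^^^ nimMul a b' ^^^ nimMul a' b' = x}ᶜ
termination_by (a, b)

/-- The 2-kernel of an integer sequence: all subsequences `n ↦ s (2 ^ e * n + r)`, `r < 2 ^ e`. -/
def twoKernel (s : ℕ → ℤ) : Set (ℕ → ℤ) :=
  {u | ∃ e r : ℕ, r < 2 ^ e ∧ u = fun n => s (2 ^ e * n + r)}

/-- A sequence is 2-regular if its 2-kernel generates a finitely generated `ℤ`-module. -/
def IsTwoRegular (s : ℕ → ℤ) : Prop :=
  (Submodule.span ℤ (twoKernel s)).FG

/-- The 2-kernel of a two-dimensional integer array: all subarrays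
`(m, n) ↦ t (2 ^ e * m + r, 2 ^ e * n + r')` with `r, r' < 2 ^ e`. -/
def twoKernelArray (t : ℕ × ℕ → ℤ) : Set (ℕ × ℕ → ℤ) :=
  {u | ∃ e r r' : ℕ, r < 2 ^ e ∧ r' < 2 ^ e ∧
    u = fun p => t (2 ^ e * p.1 + r, 2 ^ e * p.2 + r')}

/-- An array is 2-regular if its 2-kernel generates a finitely generated `ℤ`-module. -/
def IsTwoRegularArray (t : ℕ × ℕ → ℤ) : Prop :=
  (Submodule.span ℤ (twoKernelArray t)).FG

end Pool.Agent.Lib.MP_68925f_co
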