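import Mathlib
import Pool.Agent.Lib.MP_68925f_co.Defs

-- part Pool.Agent.Lib.MP_68925f_co.Ring
section

/-! Ring laws of the nim product, from the mex definition. -/

namespace Pool.Agent.Lib.MP_68925f_co

theorem xor_solve {A B X Y : ℕ} (h : A = B)
    (h2 : ∀ i, (A.testBit i = B.testBit i) → X.testBit i = Y.testBit i) : X = Y :=
  Nat.eq_of_testBit_eq fun i => h2 i (by rw [h])

theorem nimMul_def (a b : ℕ) : nimMul a b =
    sInf {x | ∃ a' < a, ∃ b' < b, nimMul a' b ^^^ nimMul a b' ^^^ nimMul a' b' = x}ᶜ := by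
  rw [nimMul]
  simp only [exists_prop]

theorem excl_finite (a b : ℕ) :
    {x | ∃ a' < a, ∃ b' < b, nimMul a' b ^^^ nimMul a b' ^^^ nimMul a' b' = x}.Finite := by
  have : {x | ∃ a' < a, ∃ b' < b, nimMul a' b ^^^ nimMul a b' ^^^ nimMul a' b' = x} ⊆
      (fun p : ℕ × ℕ => nimMul p.1 b ^^^ nimMul a p.2 ^^^ nimMul p.1 p.2) ''
        (Set.Iio a ×ˢ Set.Iio b) := by
    rintro x ⟨a', ha, b', hb, rfl⟩
    exact ⟨(a', b'), ⟨ha, hb⟩, rfl⟩
  exact (((Set.finite_Iio a).prod (Set.finite_Iio b)).image _).subset this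

theorem mul_ne_of_lt {a b a' b' : ℕ} (ha : a' < a) (hb : b' < b) :
    nimMul a' b ^^^ nimMul a b' ^^^ nimMul a' b' ≠ nimMul a b := by
  have H := Nat.sInf_mem (excl_finite a b).infinite_compl.nonempty
  rw [← nimMul_def] at H
  intro h
  exact H ⟨a', ha, b', hb, h⟩

theorem exists_of_lt_mul {a b c : ℕ} (h : c < nimMul a b) :
    ∃ a' < a, ∃ b' < b, nimMul a' b ^^^ nimMul a b' ^^^ nimMul a' b' = c := by
  rw [nimMul_def] at h
  have := Nat.notMem_of_lt_sInf h
  simpa only [Set.mem_compl_iff, not_not, Set.mem_ofPred_eq] using this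

theorem mul_le_of_forall_ne {a b c : ℕ}
    (h : ∀ a' < a, ∀ b' < b, nimMul a' b ^^^ nimMul a b' ^^^ nimMul a' b' ≠ c) :
    nimMul a b ≤ c := by
  by_contra h'
  obtain ⟨a', ha, b', hb, e⟩ := exists_of_lt_mul (not_le.1 h')
  exact h a' ha b' hb e

theorem nimMul_zero (a : ℕ) : nimMul a 0 = 0 :=
  Nat.le_zero.1 (mul_le_of_forall_ne fun _ _ _ h => absurd h (Nat.not_lt_zero _))

theorem zero_nimMul (a : ℕ) : nimMul 0 a = 0 :=
  Nat.le_zero.1 (mul_le_of_forall_ne fun _ h => absurd h (Nat.not_lt_zero _))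

theorem nimMul_comm (a b : ℕ) : nimMul a b = nimMul b a := by
  apply le_antisymm
  · refine mul_le_of_forall_ne fun x hx y hy h => ?_
    rw [nimMul_comm x b, nimMul_comm a y, nimMul_comm x y] at h
    refine mul_ne_of_lt hy hx ?_
    rw [← h, Nat.xor_comm (nimMul y a)]
  · refine mul_le_of_forall_ne fun x hx y hy h => ?_
    rw [← nimMul_comm a x, ← nimMul_comm y b, ← nimMul_comm y x] at h
    refine mul_ne_of_lt hy hx ?_
    rw [← h, Nat.xor_comm (nimMul y b)]
termination_by (a, b)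

theorem mul_ne_of_ne {a b a' b' : ℕ} (ha : a' ≠ a) (hb : b' ≠ b) :
    nimMul a' b ^^^ nimMul a b' ^^^ nimMul a' b' ≠ nimMul a b := by
  intro h
  rcases ha.lt_or_gt with ha | ha <;> rcases hb.lt_or_gt with hb | hb <;>
  · refine mul_ne_of_lt ha hb (xor_solve h fun i => ?_)
    simp only [Nat.testBit_xor]
    grind

theorem xor_le_of_forall_ne {p q r : ℕ} (h1 : ∀ x < p, x ^^^ q ≠ r)
    (h2 : ∀ y < q, p ^^^ y ≠ r) : p ^^^ q ≤ r := by
  by_contra h
  rcases Nat.lt_xor_cases (not_le.1 h) with h | h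
  · exact h1 _ h (by rw [Nat.xor_assoc, Nat.xor_self, Nat.xor_zero])
  · exact h2 _ h (by rw [Nat.xor_comm r, ← Nat.xor_assoc, Nat.xor_self, Nat.zero_xor])

theorem xor_ne_left {x y c : ℕ} (h : x ≠ y) : x ^^^ c ≠ y ^^^ c := fun e =>
  h (xor_solve e fun i => by simp only [Nat.testBit_xor]; grind)

theorem xor_ne_right {x y c : ℕ} (h : x ≠ y) : c ^^^ x ≠ c ^^^ y := fun e =>
  h (xor_solve e fun i => by simp only [Nat.testBit_xor]; grind)

theorem nimMul_xor (a b c : ℕ) : nimMul a (b ^^^ c) = nimMul a b ^^^ nimMul a c := by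
  apply le_antisymm
  · refine mul_le_of_forall_ne fun a' ha x hx h => ?_
    rcases Nat.lt_xor_cases hx with hb | hc
    · obtain ⟨b', rfl⟩ : ∃ b', x = b' ^^^ c :=
        ⟨x ^^^ c, by rw [Nat.xor_assoc, Nat.xor_self, Nat.xor_zero]⟩
      have hb : b' < b := by rwa [Nat.xor_assoc, Nat.xor_self, Nat.xor_zero] at hb
      rw [nimMul_xor a' b c, nimMul_xor a b' c, nimMul_xor a' b' c] at h
      refine mul_ne_of_lt ha hb (xor_solve h fun i => ?_)
      simp only [Nat.testBit_xor]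
      grind
    · obtain ⟨c', rfl⟩ : ∃ c', x = b ^^^ c' :=
        ⟨b ^^^ x, by rw [← Nat.xor_assoc, Nat.xor_self, Nat.zero_xor]⟩
      have hc : c' < c := by
        rwa [Nat.xor_comm b c', Nat.xor_assoc, Nat.xor_self, Nat.xor_zero] at hc
      rw [nimMul_xor a' b c, nimMul_xor a b c', nimMul_xor a' b c'] at h
      refine mul_ne_of_lt ha hc (xor_solve h fun i => ?_)
      simp only [Nat.testBit_xor]
      grind
  · refine xor_le_of_forall_ne (fun w hw h => ?_) (fun w hw h => ?_)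
    · obtain ⟨x, hx, y, hy, rfl⟩ := exists_of_lt_mul hw
      have := mul_ne_of_ne (a := a) (b := b ^^^ c) hx.ne (xor_ne_left (c := c) hy.ne)
      rw [nimMul_xor x b c, nimMul_xor a y c, nimMul_xor x y c] at this
      refine this (xor_solve h fun i => ?_)
      simp only [Nat.testBit_xor]
      grind
    · obtain ⟨x, hx, y, hy, rfl⟩ := exists_of_lt_mul hw
      have := mul_ne_of_ne (a := a) (b := b ^^^ c) hx.ne (xor_ne_right (c := b) hy.ne)
      rw [nimMul_xor x b c, nimMul_xor a b y, nimMul_xor x b y] at this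
      refine this (xor_solve h fun i => ?_)
      simp only [Nat.testBit_xor]
      grind
termination_by (a, b, c)

theorem xor_nimMul (a b c : ℕ) : nimMul (a ^^^ b) c = nimMul a c ^^^ nimMul b c := by
  rw [nimMul_comm, nimMul_xor, nimMul_comm c, nimMul_comm c]

theorem nimMul_assoc (a b c : ℕ) : nimMul (nimMul a b) c = nimMul a (nimMul b c) := by
  apply le_antisymm
  · refine mul_le_of_forall_ne fun x hx z hz h => ?_
    obtain ⟨a', ha, b', hb, rfl⟩ := exists_of_lt_mul hx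
    have := mul_ne_of_ne (a := a) (b := nimMul b c) ha.ne (mul_ne_of_lt hb hz)
    simp only [nimMul_xor, xor_nimMul] at this h
    rw [nimMul_assoc a' b c, nimMul_assoc a b' c, nimMul_assoc a' b' c, nimMul_assoc a b z,
      nimMul_assoc a' b z, nimMul_assoc a b' z, nimMul_assoc a' b' z] at h
    refine this (xor_solve h fun i => ?_)
    simp only [Nat.testBit_xor]
    grind
  · refine mul_le_of_forall_ne fun a' ha x hx h => ?_
    obtain ⟨b', hb, z, hz, rfl⟩ := exists_of_lt_mul hx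
    have := mul_ne_of_ne (a := nimMul a b) (b := c) (mul_ne_of_lt ha hb) hz.ne
    simp only [nimMul_xor, xor_nimMul] at this h
    rw [nimMul_assoc a' b c, nimMul_assoc a b' c, nimMul_assoc a' b' c, nimMul_assoc a b z,
      nimMul_assoc a' b z, nimMul_assoc a b' z, nimMul_assoc a' b' z] at this
    refine this (xor_solve h fun i => ?_)
    simp only [Nat.testBit_xor]
    grind
termination_by (a, b, c)

theorem nimMul_one (a : ℕ) : nimMul a 1 = a := by
  apply le_antisymm
  · refine mul_le_of_forall_ne fun x hx y hy h => ?_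
    obtain rfl : y = 0 := by omega
    rw [nimMul_one x, nimMul_zero, nimMul_zero, Nat.xor_zero, Nat.xor_zero] at h
    exact hx.ne h
  · by_contra h
    have h := not_le.1 h
    have := mul_ne_of_lt (a := a) (b := 1) h Nat.zero_lt_one
    rw [nimMul_one (nimMul a 1), nimMul_zero, nimMul_zero, Nat.xor_zero, Nat.xor_zero] at this
    exact this rfl
termination_by a

theorem one_nimMul (a : ℕ) : nimMul 1 a = a := by rw [nimMul_comm, nimMul_one]

theorem nimMul_eq_zero {a b : ℕ} (h : nimMul a b = 0) : a = 0 ∨ b = 0 := by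
  by_contra hab
  push Not at hab
  have := mul_ne_of_lt (Nat.pos_of_ne_zero hab.1) (Nat.pos_of_ne_zero hab.2)
  simp only [nimMul_zero, zero_nimMul, Nat.xor_zero] at this
  exact this h.symm

theorem nimMul_mul_mul_comm (a b c d : ℕ) :
    nimMul (nimMul a b) (nimMul c d) = nimMul (nimMul a c) (nimMul b d) := by
  rw [nimMul_assoc, nimMul_assoc, ← nimMul_assoc b, nimMul_comm b c, nimMul_assoc c]

end Pool.Agent.Lib.MP_68925f_co
end

-- part Pool.Agent.Lib.MP_68925f_co.Tower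
section

/-! The tower of finite fields `[0, 2 ^ 2 ^ a)` and the two rules for Fermat powers. -/

namespace Pool.Agent.Lib.MP_68925f_co

theorem pow_mul_xor {n v : ℕ} (hv : v < 2 ^ n) (u : ℕ) : 2 ^ n * u ^^^ v = 2 ^ n * u + v := by
  apply Nat.eq_of_testBit_eq
  intro i
  rw [Nat.testBit_two_pow_mul_add u hv, Nat.testBit_xor, Nat.testBit_two_pow_mul]
  by_cases h : i < n
  · simp [h, not_le.2 h]
  · have : v.testBit i = false :=
      Nat.testBit_lt_two_pow (hv.trans_le (Nat.pow_le_pow_right (by norm_num) (not_lt.1 h)))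
    simp [h, not_lt.1 h, this]

theorem xor_eq_zero' {x y : ℕ} (h : x ^^^ y = 0) : x = y :=
  xor_solve h fun i => by simp only [Nat.testBit_xor, Nat.zero_testBit]; grind

theorem exists_of_injOn {N : ℕ} (f : ℕ → ℕ) (hf : ∀ x < N, f x < N)
    (hinj : ∀ x < N, ∀ y < N, f x = f y → x = y) {y : ℕ} (hy : y < N) : ∃ x < N, f x = y := by
  let g : Fin N → Fin N := fun x => ⟨f x, hf x x.2⟩
  have hg : Function.Injective g := fun a b h =>
    Fin.ext (hinj a a.2 b b.2 (congrArg Fin.val h))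
  obtain ⟨x, hx⟩ := Finite.injective_iff_surjective.1 hg ⟨y, hy⟩
  exact ⟨x, x.2, congrArg Fin.val hx⟩

/-- `[0, 2 ^ n)` is closed under the nim product. -/
def Closed (n : ℕ) : Prop := ∀ x < 2 ^ n, ∀ y < 2 ^ n, nimMul x y < 2 ^ n

/-- The Artin-Schreier map sends `[0, 2 ^ n)` to its lower half. -/
def ASlow (n : ℕ) : Prop := ∀ x < 2 ^ n, nimMul x x ^^^ x < 2 ^ (n - 1)

theorem mul_surj {n c y : ℕ} (h : Closed n) (hc : c < 2 ^ n) (hc0 : c ≠ 0) (hy : y < 2 ^ n) :
    ∃ x < 2 ^ n, nimMul x c = y := by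
  refine exists_of_injOn (fun x => nimMul x c) (fun x hx => h x hx c hc) ?_ hy
  intro x _ z _ e
  have : nimMul (x ^^^ z) c = 0 := by
    rw [xor_nimMul, e, Nat.xor_self]
  exact xor_eq_zero' ((nimMul_eq_zero this).resolve_right hc0)

theorem sq_xor (x y : ℕ) : nimMul (x ^^^ y) (x ^^^ y) = nimMul x x ^^^ nimMul y y := by
  rw [nimMul_xor, xor_nimMul, xor_nimMul, nimMul_comm y x]
  refine xor_solve (rfl : (0 : ℕ) = 0) fun i _ => ?_
  simp only [Nat.testBit_xor]
  grind

theorem sq_surj {n y : ℕ} (h : Closed n) (hy : y < 2 ^ n) : ∃ x < 2 ^ n, nimMul x x = y := by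
  refine exists_of_injOn (fun x => nimMul x x) (fun x hx => h x hx x hx) ?_ hy
  intro x _ z _ e
  have : nimMul (x ^^^ z) (x ^^^ z) = 0 := by
    rw [sq_xor, e, Nat.xor_self]
  exact xor_eq_zero' ((nimMul_eq_zero this).elim id id)

theorem ruleA {n : ℕ} (h : Closed n) (x : ℕ) (hx : x < 2 ^ n) : nimMul (2 ^ n) x = 2 ^ n * x := by
  induction x using Nat.strong_induction_on with
  | _ x ih =>
    have key : ∀ a' < 2 ^ n, ∀ x' < x,
        nimMul a' x ^^^ nimMul (2 ^ n) x' ^^^ nimMul a' x' = 2 ^ n * x' + nimMul a' (x ^^^ x') := by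
      intro a' ha x' hx'
      rw [← pow_mul_xor (h a' ha _ (Nat.xor_lt_two_pow hx (hx'.trans hx))), nimMul_xor,
        ih x' hx' (hx'.trans hx)]
      refine xor_solve (rfl : (0 : ℕ) = 0) fun i _ => ?_
      simp only [Nat.testBit_xor]
      grind
    apply le_antisymm
    · refine mul_le_of_forall_ne fun a' ha x' hx' e => ?_
      rw [key a' ha x' hx'] at e
      have h1 := h a' ha _ (Nat.xor_lt_two_pow hx (hx'.trans hx))
      have h2 : 2 ^ n * (x' + 1) ≤ 2 ^ n * x := Nat.mul_le_mul_left _ hx'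
      rw [mul_add, mul_one] at h2
      omega
    · by_contra hlt
      have hlt := not_le.1 hlt
      have hpos : 0 < 2 ^ n := by positivity
      have hq : nimMul (2 ^ n) x / 2 ^ n < x := (Nat.div_lt_iff_lt_mul hpos).2 (by
        rwa [mul_comm] at hlt)
      have hne : x ^^^ (nimMul (2 ^ n) x / 2 ^ n) ≠ 0 := fun e => hq.ne' (xor_eq_zero' e)
      obtain ⟨a', ha, e⟩ := mul_surj h (Nat.xor_lt_two_pow hx (hq.trans hx)) hne
        (Nat.mod_lt (nimMul (2 ^ n) x) hpos)
      have := mul_ne_of_lt ha hq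
      rw [key a' ha _ hq, e, Nat.div_add_mod] at this
      exact this rfl

theorem AS_surj {n y : ℕ} (hA : ASlow n) (hn : 1 ≤ n) (hy : y < 2 ^ (n - 1)) :
    ∃ x < 2 ^ n, nimMul x x ^^^ x = y := by
  have h2 : 2 ^ n = 2 * 2 ^ (n - 1) := by
    obtain ⟨m, rfl⟩ : ∃ m, n = m + 1 := ⟨n - 1, by omega⟩
    simp [pow_succ, mul_comm]
  obtain ⟨z, hz, e⟩ := exists_of_injOn (N := 2 ^ (n - 1))
    (fun z => nimMul (2 * z) (2 * z) ^^^ (2 * z)) (fun z hz => hA _ (by omega)) (by
      intro z _ w _ e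
      have : nimMul (2 * z ^^^ 2 * w) ((2 * z ^^^ 2 * w) ^^^ 1) = 0 := by
        rw [nimMul_xor, sq_xor, nimMul_one]
        refine xor_solve e fun i => ?_
        simp only [Nat.testBit_xor, Nat.zero_testBit]
        grind
      rcases nimMul_eq_zero this with h | h
      · have := xor_eq_zero' h
        omega
      · have h := congrArg (fun t => t.testBit 0) (xor_eq_zero' h)
        simp at h) hy
  exact ⟨2 * z, by omega, e⟩

theorem mul_xor_one (a : ℕ) : nimMul a (a ^^^ 1) = nimMul a a ^^^ a := by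
  rw [nimMul_xor, nimMul_one]

theorem ruleB {n : ℕ} (h : Closed n) (hA : ASlow n) (hn : 1 ≤ n) :
    nimMul (2 ^ n) (2 ^ n) = 2 ^ n + 2 ^ (n - 1) := by
  have h1 : 1 < 2 ^ n := Nat.one_lt_two_pow (by omega)
  have hhalf : 2 ^ (n - 1) < 2 ^ n := Nat.pow_lt_pow_right (by norm_num) (by omega)
  have key : ∀ a < 2 ^ n, ∀ b < 2 ^ n,
      nimMul a (2 ^ n) ^^^ nimMul (2 ^ n) b ^^^ nimMul a b = 2 ^ n * (a ^^^ b) + nimMul a b := by
    intro a ha b hb
    rw [← pow_mul_xor (h a ha b hb), ← ruleA h _ (Nat.xor_lt_two_pow ha hb), nimMul_xor,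
      nimMul_comm a (2 ^ n)]
  apply le_antisymm
  · refine mul_le_of_forall_ne fun a ha b hb e => ?_
    rw [key a ha b hb] at e
    have hab := h a ha b hb
    have h3 : a ^^^ b = 1 := by
      rcases Nat.lt_trichotomy (a ^^^ b) 1 with h' | h' | h'
      · have : a ^^^ b = 0 := by omega
        rw [this, mul_zero] at e
        have : 0 < 2 ^ (n - 1) := by positivity
        omega
      · exact h'
      · have : 2 ^ n * 2 ≤ 2 ^ n * (a ^^^ b) := Nat.mul_le_mul_left _ h'
        omega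
    have hb' : b = a ^^^ 1 := by rw [← h3, ← Nat.xor_assoc, Nat.xor_self, Nat.zero_xor]
    rw [h3, hb', mul_xor_one] at e
    have := hA a ha
    omega
  · by_contra hlt
    have hlt := not_le.1 hlt
    by_cases hc : nimMul (2 ^ n) (2 ^ n) < 2 ^ n
    · obtain ⟨a, ha, e⟩ := sq_surj h hc
      have := mul_ne_of_lt ha ha
      rw [key a ha a ha, Nat.xor_self, e] at this
      simp at this
    · obtain ⟨a, ha, e⟩ := AS_surj hA hn
        (y := nimMul (2 ^ n) (2 ^ n) - 2 ^ n) (by omega)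
      have hb : a ^^^ 1 < 2 ^ n := Nat.xor_lt_two_pow ha h1
      have := mul_ne_of_lt ha hb
      rw [key a ha _ hb, ← Nat.xor_assoc, Nat.xor_self, Nat.zero_xor, mul_xor_one, e] at this
      omega

theorem mul_formula {n : ℕ} (h : Closed n) (hA : ASlow n) (hn : 1 ≤ n) {x y z w : ℕ}
    (hx : x < 2 ^ n) (hy : y < 2 ^ n) (hz : z < 2 ^ n) (hw : w < 2 ^ n) :
    nimMul (2 ^ n * x + y) (2 ^ n * z + w) =
      2 ^ n * (nimMul x z ^^^ nimMul x w ^^^ nimMul y z) ^^^
        (nimMul (nimMul x z) (2 ^ (n - 1)) ^^^ nimMul y w) := by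
  have hhalf : 2 ^ (n - 1) < 2 ^ n := Nat.pow_lt_pow_right (by norm_num) (by omega)
  have hB : nimMul (2 ^ n) (2 ^ n) = 2 ^ n ^^^ 2 ^ (n - 1) := by
    have := pow_mul_xor hhalf 1
    rw [mul_one] at this
    rw [ruleB h hA hn, this]
  rw [← pow_mul_xor hy, ← pow_mul_xor hw, ← ruleA h x hx, ← ruleA h z hz,
    ← ruleA h _ (Nat.xor_lt_two_pow (Nat.xor_lt_two_pow (h x hx z hz) (h x hx w hw)) (h y hy z hz))]
  have e1 : nimMul (nimMul (2 ^ n) x) (nimMul (2 ^ n) z) =
      nimMul (2 ^ n) (nimMul x z) ^^^ nimMul (nimMul x z) (2 ^ (n - 1)) := by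
    rw [nimMul_mul_mul_comm, hB, xor_nimMul, nimMul_comm (2 ^ (n - 1))]
  have e2 : nimMul y (nimMul (2 ^ n) z) = nimMul (2 ^ n) (nimMul y z) := by
    rw [← nimMul_assoc, nimMul_comm y, nimMul_assoc]
  rw [nimMul_xor, xor_nimMul, xor_nimMul, e1, e2, nimMul_assoc (2 ^ n) x w, nimMul_xor, nimMul_xor]
  refine xor_solve (rfl : (0 : ℕ) = 0) fun i _ => ?_
  simp only [Nat.testBit_xor]
  grind

theorem step {n : ℕ} (h : Closed n) (hA : ASlow n) (hn : 1 ≤ n) :
    Closed (2 * n) ∧ ASlow (2 * n) := by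
  have hpos : 0 < 2 ^ n := by positivity
  have hhalf : 2 ^ (n - 1) < 2 ^ n := Nat.pow_lt_pow_right (by norm_num) (by omega)
  have hsq : 2 ^ (2 * n) = 2 ^ n * 2 ^ n := by rw [two_mul, pow_add]
  have hdiv : ∀ a < 2 ^ (2 * n), a / 2 ^ n < 2 ^ n := fun a ha =>
    (Nat.div_lt_iff_lt_mul hpos).2 (hsq ▸ ha)
  have bound : ∀ M u v, u < M → v < 2 ^ n → 2 ^ n * u + v < 2 ^ n * M := by
    intro M u v hu hv
    have : 2 ^ n * (u + 1) ≤ 2 ^ n * M := Nat.mul_le_mul_left _ hu
    rw [mul_add, mul_one] at this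
    omega
  constructor
  · intro a ha b hb
    have hx := hdiv a ha
    have hz := hdiv b hb
    have hy := Nat.mod_lt a hpos
    have hw := Nat.mod_lt b hpos
    have hlow := Nat.xor_lt_two_pow (h _ (h _ hx _ hz) _ hhalf) (h _ hy _ hw)
    rw [← Nat.div_add_mod a (2 ^ n), ← Nat.div_add_mod b (2 ^ n), mul_formula h hA hn hx hy hz hw,
      pow_mul_xor hlow, hsq]
    exact bound _ _ _
      (Nat.xor_lt_two_pow (Nat.xor_lt_two_pow (h _ hx _ hz) (h _ hx _ hw)) (h _ hy _ hz)) hlow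
  · intro a ha
    have hx := hdiv a ha
    have hy := Nat.mod_lt a hpos
    set x := a / 2 ^ n
    set y := a % 2 ^ n
    have ea : a = 2 ^ n * x + y := (Nat.div_add_mod a (2 ^ n)).symm
    have hlow := Nat.xor_lt_two_pow (Nat.xor_lt_two_pow (h _ (h _ hx _ hx) _ hhalf) (h _ hy _ hy)) hy
    have e : nimMul a a ^^^ a = 2 ^ n * (nimMul x x ^^^ x) +
        (nimMul (nimMul x x) (2 ^ (n - 1)) ^^^ nimMul y y ^^^ y) := by
      rw [← pow_mul_xor hlow, ← ruleA h _ (Nat.xor_lt_two_pow (h _ hx _ hx) hx), ea,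
        mul_formula h hA hn hx hy hx hy, ← pow_mul_xor hy, ← ruleA h x hx,
        ← ruleA h _ (Nat.xor_lt_two_pow (Nat.xor_lt_two_pow (h x hx x hx) (h x hx y hy))
          (h y hy x hx)), nimMul_comm y x]
      simp only [nimMul_xor]
      refine xor_solve (rfl : (0 : ℕ) = 0) fun i _ => ?_
      simp only [Nat.testBit_xor]
      grind
    have e2 : 2 ^ (2 * n - 1) = 2 ^ n * 2 ^ (n - 1) := by
      rw [← pow_add]
      congr 1
      omega
    rw [e, e2]
    exact bound _ _ _ (hA x hx) hlow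

theorem tower (a : ℕ) : Closed (2 ^ a) ∧ ASlow (2 ^ a) := by
  induction a with
  | zero =>
    constructor
    · intro x hx y hy
      have hx : x = 0 ∨ x = 1 := by norm_num at hx; omega
      have hy : y = 0 ∨ y = 1 := by norm_num at hy; omega
      rcases hx with rfl | rfl <;> rcases hy with rfl | rfl <;>
        simp [nimMul_zero, nimMul_one]
    · intro x hx
      have hx : x = 0 ∨ x = 1 := by norm_num at hx; omega
      rcases hx with rfl | rfl <;> simp [nimMul_zero, nimMul_one]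
  | succ a ih =>
    rw [pow_succ, mul_comm]
    exact step ih.1 ih.2 Nat.one_le_two_pow

/-- Parity of the squares just above a Fermat power. -/
theorem sq_pow_parity (a j : ℕ) (hj : j < 2 ^ a) :
    (nimMul (2 ^ (2 ^ a + j)) (2 ^ (2 ^ a + j))).testBit 0 =
      (nimMul (nimMul (2 ^ j) (2 ^ j)) (2 ^ (2 ^ a - 1))).testBit 0 := by
  obtain ⟨h, hA⟩ := tower a
  have hn : 1 ≤ 2 ^ a := Nat.one_le_two_pow
  have hx : 2 ^ j < 2 ^ 2 ^ a := Nat.pow_lt_pow_right (by norm_num) hj
  have h0 : 0 < 2 ^ 2 ^ a := by positivity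
  have := mul_formula h hA hn hx h0 hx h0
  rw [add_zero, ← pow_add] at this
  rw [this, Nat.testBit_xor, Nat.testBit_two_pow_mul, nimMul_zero, nimMul_zero, Nat.xor_zero]
  have : ¬ (0 ≥ 2 ^ a) := by omega
  simp [this]

theorem parity_zero (a j : ℕ) (hj : j < 2 ^ a) :
    (nimMul (2 ^ (2 ^ (a + 1) + j)) (2 ^ (2 ^ (a + 1) + j))).testBit 0 = false := by
  obtain ⟨h, hA⟩ := tower a
  have hn : 1 ≤ 2 ^ a := Nat.one_le_two_pow
  have hx : 2 ^ j < 2 ^ 2 ^ a := Nat.pow_lt_pow_right (by norm_num) hj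
  have hhalf : 2 ^ (2 ^ a - 1) < 2 ^ 2 ^ a := Nat.pow_lt_pow_right (by norm_num) (by omega)
  rw [sq_pow_parity (a + 1) j (by rw [pow_succ]; omega)]
  have e : 2 ^ (2 ^ (a + 1) - 1) = nimMul (2 ^ 2 ^ a) (2 ^ (2 ^ a - 1)) := by
    rw [ruleA h _ hhalf, ← pow_add]
    congr 1
    rw [pow_succ]
    omega
  rw [e, ← nimMul_assoc, nimMul_comm _ (2 ^ 2 ^ a), nimMul_assoc,
    ruleA h _ (h _ (h _ hx _ hx) _ hhalf), Nat.testBit_two_pow_mul]
  have : ¬ (0 ≥ 2 ^ a) := by omega
  simp [this]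

theorem parity_one (a : ℕ) :
    ∃ j < 2 ^ a, (nimMul (2 ^ (2 ^ a + j)) (2 ^ (2 ^ a + j))).testBit 0 = true := by
  obtain ⟨h, hA⟩ := tower a
  have hn : 1 ≤ 2 ^ a := Nat.one_le_two_pow
  have hhalf : 2 ^ (2 ^ a - 1) < 2 ^ 2 ^ a := Nat.pow_lt_pow_right (by norm_num) (by omega)
  by_contra hcon
  push Not at hcon
  have hg : ∀ m ≤ 2 ^ a, ∀ x < 2 ^ m,
      (nimMul (nimMul x x) (2 ^ (2 ^ a - 1))).testBit 0 = false := by
    intro m
    induction m with
    | zero =>
      intro _ x hx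
      obtain rfl : x = 0 := by simpa using hx
      simp [zero_nimMul]
    | succ m ih =>
      intro hm x hx
      by_cases hx' : x < 2 ^ m
      · exact ih (by omega) x hx'
      · have hlt : x - 2 ^ m < 2 ^ m := by rw [pow_succ] at hx; omega
        have e : x = 2 ^ m ^^^ (x - 2 ^ m) := by
          have := pow_mul_xor hlt 1
          rw [mul_one] at this
          omega
        have h1 := hcon m (by omega)
        rw [sq_pow_parity a m (by omega)] at h1
        rw [e, sq_xor, xor_nimMul, Nat.testBit_xor, ih (by omega) _ hlt]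
        simpa using h1
  obtain ⟨t, ht, e⟩ := mul_surj h hhalf (by positivity) (Nat.one_lt_two_pow (by omega))
  obtain ⟨x, hx, e'⟩ := sq_surj h ht
  have := hg _ le_rfl x hx
  rw [e', e] at this
  simp at this

/-- The parity of `2 ^ k ⊗ 2 ^ k` is not eventually periodic in `k`. -/
theorem parity_not_periodic (e p : ℕ) (hp : 0 < p) :
    ¬ ∀ k, (nimMul (2 ^ (e + k)) (2 ^ (e + k))).testBit 0 =
      (nimMul (2 ^ (e + p + k)) (2 ^ (e + p + k))).testBit 0 := by
  intro hper
  set a := e + p with ha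
  have hlt : a < 2 ^ a := Nat.lt_two_pow_self
  have hz : ∀ j, (nimMul (2 ^ (2 ^ (a + 1) + j)) (2 ^ (2 ^ (a + 1) + j))).testBit 0 = false := by
    intro j
    induction j using Nat.strong_induction_on with
    | _ j ih =>
      by_cases hj : j < 2 ^ a
      · exact parity_zero a j hj
      · have h1 := ih (j - p) (by omega)
        have h2 := hper (2 ^ (a + 1) + (j - p) - e)
        have e1 : e + (2 ^ (a + 1) + (j - p) - e) = 2 ^ (a + 1) + (j - p) := by
          rw [pow_succ]; omega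
        have e2 : a + (2 ^ (a + 1) + (j - p) - e) = 2 ^ (a + 1) + j := by
          rw [pow_succ]; omega
        rw [e1, e2, h1] at h2
        exact h2.symm
  obtain ⟨j, -, hj⟩ := parity_one (a + 1)
  rw [hz j] at hj
  exact absurd hj (by simp)

end Pool.Agent.Lib.MP_68925f_co
end

-- part Pool.Agent.Lib.MP_68925f_co.Regular
section

/-! A finitely generated module of integer families has finitely many reductions mod 2. -/

namespace Pool.Agent.Lib.MP_68925f_co

theorem exists_congr_of_fg {ι : Type} {M : Submodule ℤ (ι → ℤ)} (hM : M.FG)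
    (u : ℕ → ι → ℤ) (hu : ∀ e, u e ∈ M) :
    ∃ e p, 0 < p ∧ ∀ i, ((u e i : ℤ) : ZMod 2) = ((u (e + p) i : ℤ) : ZMod 2) := by
  classical
  obtain ⟨S, rfl⟩ := hM
  let φ : (ι → ℤ) → (ι → ZMod 2) := fun v i => (v i : ZMod 2)
  let N : Submodule (ZMod 2) (ι → ZMod 2) := Submodule.span (ZMod 2) (φ '' (S : Set (ι → ℤ)))
  have hN : ∀ v ∈ Submodule.span ℤ (S : Set (ι → ℤ)), φ v ∈ N := by
    intro v hv
    induction hv using Submodule.span_induction with
    | mem x hx => exact Submodule.subset_span ⟨x, hx, rfl⟩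
    | zero =>
      have : φ 0 = 0 := by ext i; simp [φ]
      rw [this]; exact N.zero_mem
    | add x y _ _ hx hy =>
      have : φ (x + y) = φ x + φ y := by ext i; simp [φ]
      rw [this]; exact N.add_mem hx hy
    | smul c x _ hx =>
      have : φ (c • x) = (c : ZMod 2) • φ x := by ext i; simp [φ]
      rw [this]; exact N.smul_mem _ hx
  haveI : Module.Finite (ZMod 2) N :=
    Module.Finite.span_of_finite _ (S.finite_toSet.image φ)
  haveI : Finite N := Module.finite_of_finite (ZMod 2)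
  obtain ⟨x, y, hxy, h⟩ := Finite.exists_ne_map_eq_of_infinite
    (fun e : ℕ => (⟨φ (u e), hN _ (hu e)⟩ : N))
  have h' : φ (u x) = φ (u y) := congrArg Subtype.val h
  rcases lt_or_gt_of_ne hxy with hlt | hlt
  · refine ⟨x, y - x, by omega, fun i => ?_⟩
    rw [Nat.add_sub_cancel' hlt.le]
    exact congrFun h' i
  · refine ⟨y, x - y, by omega, fun i => ?_⟩
    rw [Nat.add_sub_cancel' hlt.le]
    exact (congrFun h' i).symm

theorem testBit_zero_eq_of_cast {x y : ℕ} (h : (((x : ℤ)) : ZMod 2) = ((y : ℤ) : ZMod 2)) :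
    x.testBit 0 = y.testBit 0 := by
  rw [Int.cast_natCast, Int.cast_natCast, ZMod.natCast_eq_natCast_iff'] at h
  rw [Nat.testBit_zero, Nat.testBit_zero, h]

theorem not_regular_sq : ¬ IsTwoRegular (fun n => (nimMul n n : ℤ)) := by
  intro h
  obtain ⟨e, p, hp, H⟩ := exists_congr_of_fg h
    (fun e n => (nimMul (2 ^ e * n + 0) (2 ^ e * n + 0) : ℤ))
    (fun e => Submodule.subset_span ⟨e, 0, by positivity, rfl⟩)
  refine parity_not_periodic e p hp fun k => ?_
  have := testBit_zero_eq_of_cast (H (2 ^ k))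
  rwa [add_zero, add_zero, ← pow_add, ← pow_add] at this

theorem not_regular_array : ¬ IsTwoRegularArray (fun p => (nimMul p.1 p.2 : ℤ)) := by
  intro h
  obtain ⟨e, p, hp, H⟩ := exists_congr_of_fg h
    (fun e q => (nimMul (2 ^ e * q.1 + 0) (2 ^ e * q.2 + 0) : ℤ))
    (fun e => Submodule.subset_span ⟨e, 0, 0, by positivity, by positivity, rfl⟩)
  refine parity_not_periodic e p hp fun k => ?_
  have := testBit_zero_eq_of_cast (H (2 ^ k, 2 ^ k))
  rwa [add_zero, add_zero, ← pow_add, ← pow_add] at this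

end Pool.Agent.Lib.MP_68925f_co
end
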