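import Mathlib
import Pool.Agent.Lib.MP_68925f_co.Regular

/-! The rules for Fermat powers determine the nim product. -/

namespace Pool.Agent.Lib.MP_68925f_co

theorem unique_of_rules (op : ℕ → ℕ → ℕ)
    (ha : ∀ a n, n < 2 ^ 2 ^ a → op (2 ^ 2 ^ a) n = 2 ^ 2 ^ a * n)
    (hb : ∀ a, op (2 ^ 2 ^ a) (2 ^ 2 ^ a) = 3 * 2 ^ 2 ^ a / 2)
    (hs : ∀ x y z, op (op x y) z = op x (op y z))
    (hd : ∀ x y z, op x (y ^^^ z) = op x y ^^^ op x z) (hc : ∀ x y, op x y = op y x) (x y : ℕ) :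
    op x y = nimMul x y := by
  have h0 : ∀ x, op x 0 = 0 := fun x => by simpa using hd x 0 0
  have key : ∀ a, ∀ x < 2 ^ 2 ^ a, ∀ y < 2 ^ 2 ^ a, op x y = nimMul x y := by
    intro a
    induction a with
    | zero =>
      have e21 : op 2 1 = 2 := by simpa using ha 0 1 (by norm_num)
      have e22 : op 2 2 = 3 := by simpa using hb 0
      have e23 : op 2 3 = 1 := by
        have := hd 2 2 1
        rw [e21, e22] at this
        exact this
      have e11 : op 1 1 = 1 := by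
        have e31 : op 3 1 = 3 := by rw [← e22, hs, e21]
        conv_lhs => rw [← e23, hs, e23, e31]
        exact e23
      intro x hx y hy
      have hx : x = 0 ∨ x = 1 := by norm_num at hx; omega
      have hy : y = 0 ∨ y = 1 := by norm_num at hy; omega
      rcases hx with rfl | rfl <;> rcases hy with rfl | rfl <;>
        simp [nimMul_zero, nimMul_one, h0, e11, hc 0 1]
    | succ a ih =>
      obtain ⟨h, hA⟩ := tower a
      have hn : 1 ≤ 2 ^ a := Nat.one_le_two_pow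
      have hpos : 0 < 2 ^ 2 ^ a := by positivity
      have hhalf : 2 ^ (2 ^ a - 1) < 2 ^ 2 ^ a := Nat.pow_lt_pow_right (by norm_num) (by omega)
      have hF : ∀ z < 2 ^ 2 ^ a, op (2 ^ 2 ^ a) z = nimMul (2 ^ 2 ^ a) z := fun z hz => by
        rw [ha a z hz, ruleA h z hz]
      have hFF : op (2 ^ 2 ^ a) (2 ^ 2 ^ a) = 2 ^ 2 ^ a ^^^ 2 ^ (2 ^ a - 1) := by
        have := pow_mul_xor hhalf 1
        rw [mul_one] at this
        rw [hb, this]
        obtain ⟨m, hm⟩ : ∃ m, 2 ^ a = m + 1 := ⟨2 ^ a - 1, by omega⟩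
        rw [hm, Nat.add_sub_cancel, pow_succ]
        omega
      have hsq : 2 ^ 2 ^ (a + 1) = 2 ^ 2 ^ a * 2 ^ 2 ^ a := by rw [pow_succ, mul_two, pow_add]
      intro x hx y hy
      have hx1 : x / 2 ^ 2 ^ a < 2 ^ 2 ^ a := (Nat.div_lt_iff_lt_mul hpos).2 (hsq ▸ hx)
      have hy1 : y / 2 ^ 2 ^ a < 2 ^ 2 ^ a := (Nat.div_lt_iff_lt_mul hpos).2 (hsq ▸ hy)
      have hx0 := Nat.mod_lt x hpos
      have hy0 := Nat.mod_lt y hpos
      rw [← Nat.div_add_mod x (2 ^ 2 ^ a), ← Nat.div_add_mod y (2 ^ 2 ^ a),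
        mul_formula h hA hn hx1 hx0 hy1 hy0]
      generalize x / 2 ^ 2 ^ a = p at *
      generalize y / 2 ^ 2 ^ a = q at *
      generalize x % 2 ^ 2 ^ a = r at *
      generalize y % 2 ^ 2 ^ a = s at *
      have hd' : ∀ x y z, op (x ^^^ y) z = op x z ^^^ op y z := fun x y z => by
        rw [hc, hd, hc z, hc z]
      have e1 : op (op (2 ^ 2 ^ a) p) (op (2 ^ 2 ^ a) q) =
          op (2 ^ 2 ^ a) (op p q) ^^^ op (op p q) (2 ^ (2 ^ a - 1)) := by
        rw [hs, ← hs p, hc p, hs, ← hs, hFF, hd', hc (2 ^ (2 ^ a - 1))]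
      have e2 : op r (op (2 ^ 2 ^ a) q) = op (2 ^ 2 ^ a) (op r q) := by rw [← hs, hc r, hs]
      rw [← pow_mul_xor hx0, ← pow_mul_xor hy0, ← ha a p hx1, ← ha a q hy1, hd, hd', hd', e1, e2,
        hs (2 ^ 2 ^ a) p s, ← ha a _ (Nat.xor_lt_two_pow (Nat.xor_lt_two_pow (h p hx1 q hy1)
          (h p hx1 s hy0)) (h r hx0 q hy1)), hd, hd, ih p hx1 q hy1, ih p hx1 s hy0,
        ih r hx0 q hy1, ih r hx0 s hy0, ih _ (h p hx1 q hy1) _ hhalf]
      refine xor_solve (rfl : (0 : ℕ) = 0) fun i _ => ?_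
      simp only [Nat.testBit_xor]
      grind
  have l : ∀ z ≤ x + y, z < 2 ^ 2 ^ (x + y) := fun z hz =>
    hz.trans_lt (Nat.lt_two_pow_self.trans (Nat.lt_two_pow_self))
  exact key (x + y) x (l x (by omega)) y (l y (by omega))

end Pool.Agent.Lib.MP_68925f_co
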